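import Pool.Agent.Y323.Av.Nec
import Pool.Agent.Y323.Av.Hull

set_option autoImplicit false

/-!
The exact region of `L^p`-`L^r` averaging over `H_3 ⊂ F^5` (the case `(d, k) = (5, 3)` of Q2).

Idea of the proof.  Let `V = H_3`, `n = q^5`, and let `N(z)` be the number of `x ∈ V` with
`x - z ∈ V`; an earlier result of this repository gives `N(z) ≤ K q` for all `z ≠ 0` outside five
lines, where `N(z) ≤ K q^2`.  We prove the strong type estimate at the vertex `A = (5/7, 2/7)`,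
`∑_{y-x ∈ V} f(x) g(y) ≤ C q^8` if `f, g ≥ 0`, `∑ f^(7/5), ∑ g^(7/5) ≤ n`, without level sets.
The pairs with `f(x) g(y) > n` contribute at most `n^(-2/5) ∑ f^(7/5) ∑ g^(7/5)`.  On the pairs with
`f(x) g(y) ≤ n` and `f(x) ≤ g(y)` write `f = f^(7/10) f^(3/10)`, apply the Cauchy-Schwarz inequality
in `x` and open the square; for each pair `y, y'` the factor `f(x)^(3/5)` is at most
`min(g(y), g(y'), n/g(y), n/g(y'))^(3/5)`, and the bounds for `N(y-y')` finish the proof.  The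
remaining pairs are symmetric.  Jensen's inequality `(f * σ)^s ≤ f^s * σ`, duality and the
monotonicity of the norms give the whole region.  Necessity: `f = 1_{0}` and `f = 1_{-H}`.
-/

open scoped ENNReal

namespace Pool.Agent.Results.MP_a1ab69_an.ExactRegion53

/-- The variety `H_k = {x ∈ F^d : h_1(x) = ⋯ = h_{d-k}(x) = 0}`, where
`h_j(x) = x_1^(j+1) + ⋯ + x_k^(j+1) - x_{k+j}^(j+1)`.  Coordinates are numbered from `0` here, so
that the coordinate `i ≥ k` belongs to `j = i - k + 1`. -/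
def variety (d k : ℕ) (F : Type) [Field F] [Fintype F] [DecidableEq F] : Finset (Fin d → F) :=
  Finset.univ.filter (fun x : Fin d → F => ∀ i : Fin d, k ≤ i.val →
    ∑ l ∈ Finset.univ.filter (fun l : Fin d => l.val < k),
      x l ^ (i.val - k + 2) = x i ^ (i.val - k + 2))

/-- The average `f ∗ dσ_k (y) = |H_k|^{-1} ∑_{x ∈ H_k} f (y - x)`. -/
noncomputable def average (d k : ℕ) {F : Type} [Field F] [Fintype F] [DecidableEq F]
    (f : (Fin d → F) → ℂ) (y : Fin d → F) : ℂ :=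
  ((variety d k F).card : ℂ)⁻¹ * ∑ x ∈ variety d k F, f (y - x)

/-- The norm `‖f‖_{L^p(dx)}` for the normalised counting measure `dx` of `F^d`:
`(q^{-d} ∑ |f|^p)^{1/p}`, that is `q^{-d/p}` times the `ℓ^p` norm (the maximum if `p = ∞`). -/
noncomputable def normLp (d : ℕ) {F : Type} [Field F] [Fintype F] [DecidableEq F] (p : ℝ≥0∞)
    (f : (Fin d → F) → ℂ) : ℝ :=
  (Fintype.card F : ℝ) ^ (-(d : ℝ) * (p⁻¹).toReal) *
    ‖(WithLp.toLp p f : PiLp p (fun _ : Fin d → F => ℂ))‖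

/-- `𝔓(p,r)` of Q2: `‖f ∗ dσ_k‖_r ≤ C ‖f‖_p` for all `f`, uniformly in all finite fields of
sufficiently large characteristic in which `-1` is a square. -/
def AveragingBound (d k : ℕ) (p r : ℝ≥0∞) : Prop :=
  ∃ (N : ℕ) (C : ℝ), ∀ (F : Type) [Field F] [Fintype F] [DecidableEq F],
    N < ringChar F → IsSquare (-1 : F) → ∀ f : (Fin d → F) → ℂ,
      normLp d r (average d k f) ≤ C * normLp d p f

/-- The point `A_{d,k}`. -/
noncomputable def pointA (d k : ℕ) : ℝ × ℝ :=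
  (d / (2 * d - k), (d - k) / (2 * d - k))

/-- The point `S_{d,k}`. -/
noncomputable def pointS (d k : ℕ) : ℝ × ℝ :=
  ((d * k - 2 * k + d) / (k * (2 * d - k - 1)), ((k + 1) * (d - k)) / (k * (2 * d - k - 1)))

/-- The point `T_{d,k}`. -/
noncomputable def pointT (d k : ℕ) : ℝ × ℝ :=
  ((d * (k - 1)) / (k * (2 * d - k - 1)), ((d - k) * (k - 1)) / (k * (2 * d - k - 1)))

/-- The region `conv {P_{0,0}, P_{0,1}, P_{1,1}, A_{d,k}}` of the necessary condition of Carbery,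
Stones and Wright. -/
noncomputable def largeRegion (d k : ℕ) : Set (ℝ × ℝ) :=
  convexHull ℝ {(0, 0), (0, 1), (1, 1), pointA d k}

/-- The conjectured region `conv {P_{0,0}, P_{0,1}, P_{1,1}, S_{d,k}, T_{d,k}}` of Q2. -/
noncomputable def region (d k : ℕ) : Set (ℝ × ℝ) :=
  convexHull ℝ {(0, 0), (0, 1), (1, 1), pointS d k, pointT d k}

theorem pointA_eq : pointA 5 3 = (5 / 7, 2 / 7) := by
  unfold pointA
  norm_num

theorem pointS_eq : pointS 5 3 = (7 / 9, 4 / 9) := by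
  unfold pointS
  norm_num

theorem pointT_eq : pointT 5 3 = (5 / 9, 2 / 9) := by
  unfold pointT
  norm_num

theorem largeRegion_eq : largeRegion 5 3 = convexHull ℝ Pool.Agent.Y323.Av.pts := by
  unfold largeRegion Pool.Agent.Y323.Av.pts
  rw [pointA_eq]

/-- For `(d, k) = (5, 3)` (over the fields of large characteristic in which `-1` is a square) and
all `1 ≤ p, r ≤ ∞`, `𝔓(p,r)` holds if and only if `(1/p, 1/r)` is in
`conv {P_{0,0}, P_{0,1}, P_{1,1}, A_{5,3}}`; one constant serves for all these `p, r`.  The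
conjectured region is strictly smaller, so the equivalence of Q2 is false. -/
theorem result :
    (∀ p r : ℝ≥0∞, 1 ≤ p → 1 ≤ r →
      (AveragingBound 5 3 p r ↔ ((p⁻¹).toReal, (r⁻¹).toReal) ∈ largeRegion 5 3)) ∧
    (∃ (N : ℕ) (C : ℝ), ∀ p r : ℝ≥0∞, 1 ≤ p → 1 ≤ r →
      ((p⁻¹).toReal, (r⁻¹).toReal) ∈ largeRegion 5 3 →
      ∀ (F : Type) [Field F] [Fintype F] [DecidableEq F], N < ringChar F → IsSquare (-1 : F) →
        ∀ f : (Fin 5 → F) → ℂ, normLp 5 r (average 5 3 f) ≤ C * normLp 5 p f) ∧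
    region 5 3 ⊂ largeRegion 5 3 ∧
    ¬ (∀ d k : ℕ, 3 ≤ k → k + 2 ≤ d → Odd k → ∀ p r : ℝ≥0∞, 1 ≤ p → 1 ≤ r →
        (AveragingBound d k p r ↔ ((p⁻¹).toReal, (r⁻¹).toReal) ∈ region d k)) := by
  have hmem : ∀ p r : ℝ≥0∞, 1 ≤ p → 1 ≤ r →
      (((p⁻¹).toReal, (r⁻¹).toReal) ∈ largeRegion 5 3 ↔
        2 / 5 * (p⁻¹).toReal ≤ (r⁻¹).toReal ∧ 1 - 5 / 2 * (1 - (p⁻¹).toReal) ≤ (r⁻¹).toReal) := by
    intro p r hp hr
    rw [largeRegion_eq]
    exact Pool.Agent.Y323.Av.hull_iff _ _ ENNReal.toReal_nonneg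
      (Pool.Agent.Y323.Av.toReal_inv_le_one hp) (Pool.Agent.Y323.Av.toReal_inv_le_one hr)
  have hU : ∃ (N : ℕ) (C : ℝ), ∀ p r : ℝ≥0∞, 1 ≤ p → 1 ≤ r →
      ((p⁻¹).toReal, (r⁻¹).toReal) ∈ largeRegion 5 3 →
      ∀ (F : Type) [Field F] [Fintype F] [DecidableEq F], N < ringChar F → IsSquare (-1 : F) →
        ∀ f : (Fin 5 → F) → ℂ, normLp 5 r (average 5 3 f) ≤ C * normLp 5 p f := by
    obtain ⟨N, C, h⟩ := Pool.Agent.Y323.Av.suff
    refine ⟨N, C, ?_⟩
    intro p r hp hr hm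
    obtain ⟨h1, h2⟩ := (hmem p r hp hr).mp hm
    exact h p r hp hr h1 h2
  have hiff : ∀ p r : ℝ≥0∞, 1 ≤ p → 1 ≤ r →
      (AveragingBound 5 3 p r ↔ ((p⁻¹).toReal, (r⁻¹).toReal) ∈ largeRegion 5 3) := by
    intro p r hp hr
    constructor
    · intro h
      exact (hmem p r hp hr).mpr (Pool.Agent.Y323.Av.nec p r hp hr h)
    · intro h
      obtain ⟨N, C, hC⟩ := hU
      exact ⟨N, C, hC p r hp hr h⟩
  have hnot : ((7 / 10 : ℝ), (3 / 10 : ℝ)) ∉ region 5 3 := by
    have e : region 5 3 = Pool.H654R4.hull 5 3 := by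
      unfold region Pool.H654R4.hull pointS pointT
      rfl
    rw [e]
    exact Pool.H654R4.not_mem_hull
  have hin : ((7 / 10 : ℝ), (3 / 10 : ℝ)) ∈ largeRegion 5 3 := by
    rw [largeRegion_eq, Pool.Agent.Y323.Av.hull_iff _ _ (by norm_num) (by norm_num) (by norm_num)]
    norm_num
  refine ⟨hiff, hU, ⟨?_, fun h => hnot (h hin)⟩, ?_⟩
  · unfold region
    apply convexHull_min
    · intro x hx
      rw [pointS_eq, pointT_eq] at hx
      simp only [Set.mem_insert_iff, Set.mem_singleton_iff] at hx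
      rw [largeRegion_eq]
      rcases hx with rfl | rfl | rfl | rfl | rfl <;>
        (rw [Pool.Agent.Y323.Av.hull_iff _ _ (by norm_num) (by norm_num) (by norm_num)]; norm_num)
    · exact convex_convexHull ℝ _
  · intro h
    have e1 : ((ENNReal.ofReal (10 / 3))⁻¹).toReal = 3 / 10 := by
      rw [ENNReal.toReal_inv, ENNReal.toReal_ofReal (by norm_num)]
      norm_num
    have e2 : ((ENNReal.ofReal (10 / 7))⁻¹).toReal = 7 / 10 := by
      rw [ENNReal.toReal_inv, ENNReal.toReal_ofReal (by norm_num)]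
      norm_num
    have hp : (1 : ℝ≥0∞) ≤ ENNReal.ofReal (10 / 7) := by
      rw [ENNReal.one_le_ofReal]; norm_num
    have hr : (1 : ℝ≥0∞) ≤ ENNReal.ofReal (10 / 3) := by
      rw [ENNReal.one_le_ofReal]; norm_num
    have h3 := (hiff (ENNReal.ofReal (10 / 7)) (ENNReal.ofReal (10 / 3)) hp hr).mpr (by
      rw [e1, e2]; exact hin)
    have h4 := (h 5 3 le_rfl le_rfl (by decide) (ENNReal.ofReal (10 / 7)) (ENNReal.ofReal (10 / 3))
      hp hr).mp h3
    rw [e1, e2] at h4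
    exact hnot h4

end Pool.Agent.Results.MP_a1ab69_an.ExactRegion53
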